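import Pool.Agent.V8H38.NH.Main
import Pool.Agent.V8H38.NH.Sim
import Pool.Agent.V8H38.RM.Machine

/-!
# Small nondeterministic branching programs for a language of a pushdown automaton have hazards

The definitions used in the statement are in `Pool.Agent.V8H47.MH.Defs` (automata, `twoDPDA`,
`twoNFA`), `Pool.Agent.V8H38.RM.Defs` (the language `MCV`, patterns of words, `fill`),
`Pool.Agent.V8H38.HZ.Defs` (`span`, `switch`, `most`) and `Pool.Agent.V8H38.NH.Defs`
(nondeterministic branching programs `NBP`, `eval`, `eval3`, `Hazard`, `unknown`, `hazards`,
`negated`, `agree`).

`MCV` is the monotone circuit value problem; the inputs of a gate are given by two unary numbers.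
A nondeterministic branching program is a directed graph whose edges are free or test one bit; it
accepts if there is a path from vertex `0` to vertex `1` along edges whose tests are passed. If some
bits are unknown then the output is known to be one if some path uses known bits only, it is known
to be zero if there is no path even if every test of an unknown bit is passed, and it is unknown
otherwise. The program has a hazard between two inputs if its output does not depend on the bits in
which they differ, but is unknown if these bits are unknown.

* A one-head two-way deterministic pushdown automaton accepts `MCV`.
* There is a constant `a` such that for all `n ≤ 2 ^ s` there are a word of length at most `n ^ 3`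
  with `n` variable constants, a distribution of inputs and a distribution of orders of the
  variables such that no program with at most `2 ^ s` edges decides the membership in `MCV` correctly
  with probability more than `1 / 2 + (1 + U) s ^ a / n`, where `U` is the expected number of
  disjoint intervals of the order for which the output is unknown; and every program of this size
  that is always correct has hazards for `n / (2 s ^ a) - 2` disjoint intervals on average.
* The number of disjoint hazards is at most the number of variables that are read negatively.
* Every language of a nondeterministic two-way multihead automaton has programs of polynomial size.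

So if nondeterministic multihead automata could do without the pushdown store (that is, if
NL = P), then there would be programs of size `n ^ O(1)` for `MCV`, and all of them would have
`n / polylog n` disjoint hazards: the reduction of a pushdown store to nondeterminism cannot be
free of hazards, not even nearly.

The proof: above a fixed input the output of the three-valued evaluation is unknown if and only if
a monotone reachability problem in the changed bits has a solution and another one in the negated
changed bits has none, and this is a monotone formula of depth `O(s ^ 2)`. By the lifting theorem of
Raz and McKenzie, boosting and many copies, such formulas do not distinguish between the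
yes-instances and the no-instances of one copy that is added to the others.
-/

namespace Pool.Agent.Results.MP_5e85fc_lc.BranchingHazards

open Pool.Agent.V8H38.RM Pool.Agent.V8H38.NH Pool.Agent.V8H47.MH

/-- The monotone circuit value problem is accepted by a one-head two-way deterministic pushdown
automaton, and it is hard on average for small nondeterministic branching programs with few
unknown values; the exact ones have many hazards. Every language of a nondeterministic two-way
multihead finite automaton has nondeterministic branching programs of polynomial size. -/
theorem result : MCV ∈ twoDPDA 1 Letter ∧
    (∃ a : ℕ, ∀ n s : ℕ, 0 < n → 2 ≤ s → n ≤ 2 ^ s →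
      ∃ p : List (Letter ⊕ Fin n), p.length ≤ n ^ 3 ∧
        p.filterMap Sum.getRight? = List.finRange n ∧
        ∃ (D : (Fin n → Bool) → ℝ) (Q : Equiv.Perm (Fin n) → ℝ),
          (∀ x, 0 ≤ D x) ∧ ∑ x, D x = 1 ∧ (∀ π, 0 ≤ Q π) ∧ ∑ π, Q π = 1 ∧
          ∀ P : NBP n, P.edges.length ≤ 2 ^ s →
            P.agree D (fun x => fill p x ∈ MCV) ≤
              1 / 2 + (1 + ∑ π, Q π * (P.unknown π : ℝ)) * (s : ℝ) ^ a / n ∧
            ((∀ x, P.eval x = true ↔ fill p x ∈ MCV) →
              (n : ℝ) / (2 * (s : ℝ) ^ a) - 2 ≤ ∑ π, Q π * (P.hazards π : ℝ))) ∧
    (∀ (n : ℕ) (P : NBP n) (π : Equiv.Perm (Fin n)), P.hazards π ≤ P.negated) ∧
    ∀ (k : ℕ), ∀ L ∈ twoNFA k Letter, ∃ c : ℕ, ∀ (n : ℕ) (p : List (Letter ⊕ Fin n)),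
      ∃ P : NBP n, P.edges.length ≤ (n + p.length + 2) ^ c ∧
        ∀ x, P.eval x = true ↔ fill p x ∈ L :=
  ⟨MCV_mem, main, fun _ P π => hazards_le_negated P π, fun _ _ hL => sim_nbp hL⟩

end Pool.Agent.Results.MP_5e85fc_lc.BranchingHazards
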