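import Pool.Agent.V8H86.TE.Final

/-!
# Frugal branching programs do not evaluate trees, even on average

The tree evaluation problem (in LogDCFL, hence in P, the class of the two-way multihead
deterministic pushdown automata): `2 ^ m` leaves with numbers in `Fin k`, a `k * k` table at each
inner node; the value of an inner node is the entry of its table in the row given by the value of
its left child and in the column given by the value of its right child; find `g x` for the value
`x` of the root, where `g` is a function on `Fin k` whose fibres have at most `w` elements: for
example `x` itself (`w = 1`) or one bit of `x` (`w = k / 2`).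
A two-way multihead deterministic finite automaton (a deterministic machine with logarithmic space)
for it would give deterministic branching programs with polynomially many states.

A program is `t`-frugal on an input if for every inner node and each of its two children at most
`t` different entries of the right line of the table for this child are read in every time
interval that ends with a read of the right entry of the table and in which, before, neither this
entry nor the variable that gives the value of the child is read. So the entries in a wrong row and
a wrong column are free, and the number of reads of all the other entries is not bounded either: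
only the number of different candidates for the value of a child that are tried without looking at
the child again is bounded, and only until the right one is tried.

* `k`-way programs with `|Q|` states, of any length, are right and `t`-frugal on at most a
  fraction `w / k + 2 ^ (m + 1) * t / k + |Q| * (2 * m * t / k) ^ m` of the inputs (`w / k` is the
  success of a guess);
* the same bound holds for the inputs on which a program is right after at most `t` steps;
* programs that are right and `t`-frugal on a fraction `w / k + δ` of the inputs have at least
  `(δ / 2) * (k / (2 * m * t)) ^ m` states if `2 ^ (m + 2) * t ≤ δ * k`;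
* for `k = 2 ^ ((d + e + 1) * m)` and `t = 2 ^ (d * m)`, `e > 0`, a program with at most
  `2 ^ (e * m ^ 2 - m)` states is right and `t`-frugal on at most a fraction `w / k + 3 / 2 ^ m` of
  the inputs.  The input has `n` bits with `log n = O(m)`, so this is a lower bound
  `n ^ (c * log n)` with `c > 0`, for `t = k ^ (1 - ε)` for any fixed `ε > 0`.
-/

namespace Pool.Agent.Results.MP_5e85fc_lc.FrugalTreeEvaluation

open Pool.Agent.V8H86.TE

theorem result (k m t w : ℕ) [NeZero k] (O Q : Type) [Fintype Q] (B : Prog k O Q) (g : Fin k → O)
    (hw : ∀ c, {a | g a = c}.ncard ≤ w) :
    -- right and frugal
    ((Nat.card {I : Input m k // B.Outputs (look I) (g (nodeValue m (look I) [])) ∧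
        B.Frugal m t (look I)} : ℝ) ≤
      (w / k + 2 ^ (m + 1) * t / k + Fintype.card Q * (2 * m * t / k) ^ m) *
        Nat.card (Input m k)) ∧
    -- right in time `t`
    ((Nat.card {I : Input m k // B.OutputsBy (look I) t (g (nodeValue m (look I) []))} : ℝ) ≤
      (w / k + 2 ^ (m + 1) * t / k + Fintype.card Q * (2 * m * t / k) ^ m) *
        Nat.card (Input m k)) ∧
    -- right and frugal with advantage `δ`
    (∀ δ : ℝ, 0 < m → 2 ^ (m + 2) * t ≤ δ * k →
      (w / k + δ) * Nat.card (Input m k) ≤
        Nat.card {I : Input m k // B.Outputs (look I) (g (nodeValue m (look I) [])) ∧
          B.Frugal m t (look I)} →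
      δ * ((k : ℝ) / (2 * m * t)) ^ m ≤ 2 * Fintype.card Q) ∧
    -- tables of polynomial size
    (∀ d e : ℕ, 0 < m → 0 < e → k = 2 ^ ((d + e + 1) * m) → t = 2 ^ (d * m) →
      2 ^ m * Fintype.card Q ≤ 2 ^ (e * m ^ 2) →
      (Nat.card {I : Input m k // B.Outputs (look I) (g (nodeValue m (look I) [])) ∧
        B.Frugal m t (look I)} : ℝ) ≤ (w / k + 3 / 2 ^ m) * Nat.card (Input m k)) ∧
    -- a program is frugal if it reads few entries of the right lines in all
    (∀ I : Input m k, (∀ (p : List Bool) (b : Bool), p.length < m →
        {c | ∃ s, B.ReadsAt (look I) s (line m (look I) p b c)}.ncard ≤ t) →
      B.Frugal m t (look I)) :=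
  ⟨main' B g hw m t, main_time B g hw m t, fun δ hm => main_adv B g hw m t hm δ,
    fun d e hm he hk ht hQ => main_power B g hw m t d e hm he hk ht hQ,
    fun _ h => frugal_of_total h⟩

end Pool.Agent.Results.MP_5e85fc_lc.FrugalTreeEvaluation
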