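import Pool.Agent.V8H39.TV.SepMain

/-!
# Two deterministic context-free sets which cannot be separated with a store of small dimension

The definitions used in the statement are in `Pool.Agent.V8H39.SR.DDefs` (the alphabet `Sy`, patterns
of words and `fillBits`, the class `oneDPDA` of the languages of deterministic one-way pushdown
automata), `Pool.Agent.V8H47.MH.Defs` (automata, the class `twoDPDA 1` of the languages of one-head
two-way deterministic pushdown automata), `Pool.Agent.V8H39.SR.Defs` (nondeterministic machines
`Mach` with a pushdown store, `Answers`, `Path`) and `Pool.Agent.V8H39.TV.DimDefs` (the dimension of a
computation, `AcceptsDim`).

Machines of this kind with polynomially many configurations (the contents of the store not counted)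
are the nonuniform form of nondeterministic multihead pushdown automata, and without a store they are
the nonuniform form of nondeterministic multihead finite automata. Each symbol that is put on the
store and taken from it later splits a computation in two parts (while the symbol is on the store,
and after it), so a computation is a binary tree, and its dimension is the Strahler number of this
tree. The dimension is `0` if nothing is taken from the store, and it is at most `log (t + 1) + 1` for
a computation with at most `t` turns or of length `t`.

There is a deterministic context-free language `U` with the following property. For each `k` there
are a constant `C` and, for each `n`, two words `p c n` (`c = true` or `c = false`) of polynomial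
length in which `n` letters are variable bits, each variable once and in this order, such that the
following holds for all `n`, `E` and `d` with `K ≤ log n`, where `K = C (E + 1) (d + 1)`. Let `A c` be
the set of the inputs `x` for which `p c n` with the bits `x` is in `U`. The sets `A true` and
`A false` are disjoint and not empty, have the same number of elements, and are small: they have at
most `2 ^ (n - E)` elements. Let `P` be any nondeterministic machine with a store, with at most
`n ^ E` configurations, in which the bits are read at most `k` times on average on every path from
the start to acceptance (consistent or not; the bound for a bit does not depend on the path). If `P`
accepts only `w` elements of one of the two sets, then it accepts at most a part `1 / 2 ^ E` of the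
other one, and `n ^ K * w / 2 ^ E` more elements of it, by computations of dimension at most `d`.

So no such machine separates the two sets: whatever it does with the other inputs, if it accepts a
part `2 / 2 ^ E` of one of the sets by computations of dimension at most `d`, then it accepts at
least a part `1 / n ^ K` of the other set. In particular (for positive `E`) no such machine accepts
the elements of `A c`, or of the complement of `A c`, and no other inputs, by computations of
dimension at most `d`. For given `E` the dimension has to be `Ω(log n / (E + 1))`, whereas all
computations of polynomial length have dimension `O(log n)`, and a one-way deterministic pushdown
automaton, which reads each bit once, decides each of the two sets.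

The proof. A computation of dimension `d` can be done part by part, the part of smaller dimension
first, such that at each time only `d + 1` parts are unfinished. This gives a program without a store
with `n ^ O((E + 1) (d + 1))` nodes in which each bit is read exactly as often as before. The words
describe a tree over the field with `2 ^ b` elements in which the value of an inner node is the value
of its block of bits plus the product of the values of the children; the two sets are given by two
different values of the root. In a program without a store in which the bits are read `O(1)` times on
average the reads of some bits can be put in order by a Ramsey argument, so that there are sets of
bits in alternating subtrees along a path of the tree, such that the program alternates only a few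
times between them, but the value of the root as a function of them is an inner product, in a number
of dimensions proportional to `log n`, of two vectors that are spread over the whole space. The inputs
accepted are covered by few products of sets, and in each large product each value of the root occurs
about equally often.
-/

namespace Pool.Agent.Results.MP_5e85fc_lc.InseparableSets

open Finset Pool.Agent.V8H39.SR Pool.Agent.V8H47.MH

/-- Two disjoint small sets of inputs of the same size, both given by one deterministic context-free
language, such that nondeterministic machines with a store, with `n ^ E` configurations, that read the bits a
bounded number of times on average and accept few elements of one of the sets, accept few elements of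
the other one by computations of dimension at most `d`. -/
theorem result : ∃ U ∈ oneDPDA Sy, U ∈ twoDPDA 1 Sy ∧
    ∀ k, ∃ (C : ℕ) (p : Bool → ∀ n, List (Sy ⊕ Fin n)),
    (∀ c n, (p c n).length ≤ (n + 2) ^ 5 ∧
      (p c n).filterMap Sum.getRight? = List.finRange n) ∧
    ∀ n E d, C * (E + 1) * (d + 1) ≤ Nat.log 2 n →
      (∀ x, ¬ (fillBits (p true n) x ∈ U ∧ fillBits (p false n) x ∈ U)) ∧
      Nat.card {x : Fin n → Bool // fillBits (p true n) x ∈ U} =
        Nat.card {x : Fin n → Bool // fillBits (p false n) x ∈ U} ∧
      ∀ c, 0 < Nat.card {x : Fin n → Bool // fillBits (p c n) x ∈ U} ∧
        2 ^ E * Nat.card {x : Fin n → Bool // fillBits (p c n) x ∈ U} ≤ 2 ^ n ∧
        ∀ P : Mach (Fin n), Fintype.card P.Conf ≤ n ^ E →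
        (∃ κ : Fin n → ℕ, ∑ v, κ v ≤ k * n ∧ ∀ L, P.Path L true → ∀ v, L.count v ≤ κ v) →
        2 ^ E * Nat.card {x // P.AcceptsDim d x ∧ fillBits (p c n) x ∈ U} ≤
          Nat.card {x : Fin n → Bool // fillBits (p c n) x ∈ U} +
          n ^ (C * (E + 1) * (d + 1)) *
            Nat.card {x // P.Answers x true ∧ fillBits (p (!c) n) x ∈ U} :=
  Pool.Agent.V8H39.TV.mainS

end Pool.Agent.Results.MP_5e85fc_lc.InseparableSets
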