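import Pool.Agent.V8H45.NS.Final
import Pool.Agent.V8H45.NR.SimProg

/-!
# Nondeterministic log-space computations of low activity cannot replace a pushdown store

The definitions used in the statement are in `Pool.Agent.V8H47.MH.Defs` (automata, `twoDPDA`,
`twoNFA`), `Pool.Agent.V8H38.RM.Defs` (the language `MCV`, patterns of words, `fill`),
`Pool.Agent.V8H45.NR.Defs` (programs with reachability gates, `Layered`, `combos`, `depth`,
`agree`) and `Pool.Agent.V8H45.NS.Defs` (`wired`, `activity`).

`MCV` is the monotone circuit value problem; the inputs of a gate are given by two unary numbers.
A program has reachability gates: such a gate is a directed graph whose edges are present if given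
earlier nodes have the value one, and its value is one if there is a path from vertex `0` to vertex
`1`; this is one nondeterministic computation in logarithmic space, which may use the results of
earlier computations, but only positively. All negative use of results (and any other one) is made
by gates that apply arbitrary functions to any number of nodes. The depth counts
`(log m + 2) ^ 2` for a reachability gate with `m` edges.

* A one-head two-way deterministic pushdown automaton accepts `MCV`.
* There is a constant `a` such that for all `n` and all `t ≥ log n` there are a word of length at
  most `n ^ 3` with `n` variable constants, a distribution of inputs and a distribution of orders of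
  the variables such that no program of depth `t` computes the membership in `MCV` correctly with
  probability more than `1 / 2 + (1 + A) t ^ a / n`. Here the program may contain any number of
  arbitrary gates (up to `4 ^ t` nodes may be read by such gates), and `A` is its expected activity:
  the number of steps at which the value of a node that is read by such a gate changes, when the
  variables are set to one in the random order.
* If the arbitrary gates are arranged in layers then `A < W`, where `W` is the product over all
  layers of one plus the number of nodes that they read; with `W` instead of `1 + A` the size of the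
  program need not be bounded.
* Every language of a nondeterministic two-way multihead automaton has, for all patterns of words of
  length `N` with `n` variable constants, programs with `W = n + 1` (one layer of NOT gates,
  which read the `n` inputs, and one reachability gate), so activity at most `n`, and depth
  `O(log ^ 2 (n + N))`.

So if nondeterministic multihead automata could do without the pushdown store (that is, if
NL = P), then there would be programs for `MCV` with activity at most `n` and depth `O(log ^ 2 n)`;
and every family of such programs must have the activity `n / polylog n`, even if it is correct only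
for a fraction `1 / 2 + ε` of the inputs.

The proof of the lower bound uses the chain of `Pool.Agent.V8H38.RM` (circuits with AND and OR
gates of fan-in two; see `MP_4e849b_lc.ShallowHazards`): a lifting theorem of Raz and McKenzie,
boosting, and many copies of the resulting function, one of which after the other is turned into a random
no-instance. At the steps of this chain at which no node read by an arbitrary gate changes, these
gates can be replaced by constants.
-/

namespace Pool.Agent.Results.MP_5e85fc_lc.ReachabilityPrograms

open Pool.Agent.V8H38.RM Pool.Agent.V8H45.NR Pool.Agent.V8H47.MH

/-- The monotone circuit value problem is accepted by a one-head two-way deterministic pushdown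
automaton, and it is hard on average for programs with reachability gates and arbitrary gates whose
activity is less than `n / polylog n`; every language of a nondeterministic two-way multihead finite
automaton has such programs with activity at most `n`. -/
theorem result : MCV ∈ twoDPDA 1 Letter ∧
    (∃ a : ℕ, ∀ n t : ℕ, 0 < n → 2 ≤ t → Nat.log 2 n ≤ t →
      ∃ p : List (Letter ⊕ Fin n), p.length ≤ n ^ 3 ∧
        p.filterMap Sum.getRight? = List.finRange n ∧
        ∃ (D : (Fin n → Bool) → ℝ) (Q : Equiv.Perm (Fin n) → ℝ),
          (∀ x, 0 ≤ D x) ∧ ∑ x, D x = 1 ∧ (∀ π, 0 ≤ Q π) ∧ ∑ π, Q π = 1 ∧
          (∀ C : Prog n, C.depth ≤ t → C.wired.card ≤ 4 ^ t →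
            C.agree D (fun x => fill p x ∈ MCV) ≤
              1 / 2 + (1 + ∑ π, Q π * (C.activity π : ℝ)) * (t : ℝ) ^ a / n) ∧
          ∀ (C : Prog n) (lev : ℕ → ℕ), C.Layered lev → C.depth ≤ t →
            (∀ π, 1 + C.activity π ≤ C.combos lev) ∧
            C.agree D (fun x => fill p x ∈ MCV) ≤ 1 / 2 + C.combos lev * (t : ℝ) ^ a / n) ∧
    ∀ (k : ℕ), ∀ L ∈ twoNFA k Letter, ∃ c : ℕ, ∀ (n : ℕ) (p : List (Letter ⊕ Fin n)),
      ∃ (C : Prog n) (lev : ℕ → ℕ), C.Layered lev ∧ C.combos lev ≤ n + 1 ∧
        C.depth ≤ (c * Nat.log 2 (n + p.length + 2)) ^ 2 ∧
        ∀ x, C.eval x = true ↔ fill p x ∈ L := by
  refine ⟨MCV_mem, ?_, fun _ _ hL => sim hL⟩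
  obtain ⟨a, ha⟩ := main_act
  refine ⟨a, fun n t hn ht hlt => ?_⟩
  obtain ⟨p, h1, h2, D, Q, h3, h4, h5, h6, h7⟩ := ha n t hn ht hlt
  exact ⟨p, h1, h2, D, Q, h3, h4, h5, h6, h7, fun C lev hL hd =>
    ⟨fun π => activity_combos hL π, of_layered hn ht hlt h3 h4 h5 h6 h7 C lev hL hd⟩⟩

end Pool.Agent.Results.MP_5e85fc_lc.ReachabilityPrograms
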